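import Pool.Agent.H27.LB.TRI

/-!
Module L-CUB of the LB project (MP_2059f1_ag): continuous cube roots.
-/

set_option autoImplicit false

open Topology Set Filter

namespace Pool.Agent.H27.LB

open Pool.Agent.H64.LB

/-- the lift of the segment from `a ^ 3` to `r` -/
noncomputable def fc (a : ℂ) (r s : ℝ) : ℂ :=
  a * ((1 - s) + s * (r / a ^ 3)) ^ (((3 : ℕ) : ℂ)⁻¹)

lemma zero_mem_tri : (0 : ℂ) ∈ tri := ⟨0, le_rfl, by simp⟩

lemma fc_cube {a : ℂ} {r s : ℝ} (h : a ∈ tri → r = 0) :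
    fc a r s ^ 3 = (1 - s) * a ^ 3 + s * r := by
  by_cases ha : a = 0
  · rw [fc, ha, h (ha ▸ zero_mem_tri)]
    simp
  · rw [fc, mul_pow, Complex.cpow_nat_inv_pow _ (by norm_num)]
    field_simp

lemma slit_aux {w : ℂ} {r s : ℝ} (hw : ¬ (w.im = 0 ∧ w.re ≤ 0)) (hr : 0 < r)
    (hs : s ∈ Icc (0 : ℝ) 1) :
    ¬ (((1 - s) * w + s * r : ℂ).im = 0 ∧ ((1 - s) * w + s * r : ℂ).re ≤ 0) := by
  rintro ⟨h1, h2⟩
  simp only [Complex.add_re, Complex.add_im, Complex.mul_re, Complex.mul_im, Complex.sub_re,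
    Complex.sub_im, Complex.one_re, Complex.one_im, Complex.ofReal_re, Complex.ofReal_im] at h1 h2
  have e1 : (1 - s) * w.im = 0 := by linarith
  have e2 : (1 - s) * w.re + s * r ≤ 0 := by linarith
  rcases mul_eq_zero.1 e1 with h | h
  · have : s = 1 := by linarith
    rw [this] at e2
    linarith
  · have hre : 0 < w.re := by
      by_contra h'
      exact hw ⟨h, not_lt.1 h'⟩
    have h3 : 0 ≤ 1 - s := by linarith [hs.2]
    have h4 := mul_nonneg h3 hre.le
    have h5 := mul_nonneg hs.1 hr.le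
    rcases hs.1.eq_or_lt with h6 | h6
    · rw [← h6] at e2
      linarith
    · have := mul_pos h6 hr
      linarith

lemma fc_inner {a : ℂ} {r s : ℝ} (h : a ∈ tri → r = 0) (hr : 0 ≤ r)
    (hs : s ∈ Icc (0 : ℝ) 1) :
    0 ≤ ((1 - s) + s * (r / a ^ 3) : ℂ).re ∨ ((1 - s) + s * (r / a ^ 3) : ℂ).im ≠ 0 := by
  rcases hr.eq_or_lt with h0 | h0
  · left
    rw [← h0]
    simp only [Complex.ofReal_zero, zero_div, mul_zero, add_zero, Complex.sub_re, Complex.one_re,
      Complex.ofReal_re]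
    linarith [hs.2]
  · have hat : a ∉ tri := fun h' => h0.ne' (h h')
    rw [mem_tri_iff] at hat
    obtain ⟨w, hw⟩ : ∃ w : ℂ, w = a ^ 3 := ⟨_, rfl⟩
    rw [← hw] at hat ⊢
    have hw0 : w ≠ 0 := by
      rintro rfl
      exact hat ⟨rfl, le_rfl⟩
    have hn : 0 < Complex.normSq w := Complex.normSq_pos.2 hw0
    have e1 : (r / w : ℂ).re = r * w.re / Complex.normSq w := by
      rw [Complex.div_re, Complex.ofReal_re, Complex.ofReal_im]
      ring
    have e2 : (r / w : ℂ).im = -(r * w.im / Complex.normSq w) := by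
      rw [Complex.div_im, Complex.ofReal_re, Complex.ofReal_im]
      ring
    by_contra hcon
    push Not at hcon
    obtain ⟨h1, h2⟩ := hcon
    simp only [Complex.add_re, Complex.add_im, Complex.mul_re, Complex.mul_im, Complex.sub_re,
      Complex.sub_im, Complex.one_re, Complex.one_im, Complex.ofReal_re, Complex.ofReal_im,
      e1, e2] at h1 h2
    have e3 : s * (r * w.im / Complex.normSq w) = 0 := by linarith
    have e4 : (1 - s) + s * (r * w.re / Complex.normSq w) < 0 := by linarith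
    rcases mul_eq_zero.1 e3 with h3 | h3
    · rw [h3] at e4
      linarith
    · have h4 : w.im = 0 := by
        rcases div_eq_zero_iff.1 h3 with h5 | h5
        · rcases mul_eq_zero.1 h5 with h6 | h6
          · exact absurd h6 h0.ne'
          · exact h6
        · exact absurd h5 hn.ne'
      have hre : 0 < w.re := by
        by_contra h'
        exact hat ⟨h4, not_lt.1 h'⟩
      have h5 : 0 ≤ s * (r * w.re / Complex.normSq w) := mul_nonneg hs.1 (by positivity)
      linarith [hs.2]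

lemma fc_cont : ContinuousOn (fun p : ℂ × ℝ × ℝ => fc p.1 p.2.1 p.2.2)
    {p | 0 ≤ p.2.1 ∧ p.2.2 ∈ Icc (0 : ℝ) 1 ∧ (p.1 ∈ tri → p.2.1 = 0)} := by
  rintro ⟨a, r, s⟩ ⟨hr, hs, h⟩
  by_cases ha : a = 0
  · have hr0 : r = 0 := h (by
      change a ∈ tri
      rw [ha]
      exact zero_mem_tri)
    have hval : fc a r s = 0 := by rw [fc, ha, zero_mul]
    rw [ContinuousWithinAt]
    change Tendsto _ _ (𝓝 (fc a r s))
    rw [hval, tendsto_zero_iff_norm_tendsto_zero]
    have h1 : Tendsto (fun p : ℂ × ℝ × ℝ => ‖(1 - (p.2.2 : ℂ)) * p.1 ^ 3 + p.2.2 * p.2.1‖ ^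
        ((3 : ℝ)⁻¹)) (𝓝[{p | 0 ≤ p.2.1 ∧ p.2.2 ∈ Icc (0 : ℝ) 1 ∧ (p.1 ∈ tri → p.2.1 = 0)}]
          (a, r, s)) (𝓝 0) := by
      have h2 : ContinuousAt (fun p : ℂ × ℝ × ℝ =>
          ‖(1 - (p.2.2 : ℂ)) * p.1 ^ 3 + p.2.2 * p.2.1‖ ^ ((3 : ℝ)⁻¹)) (a, r, s) := by
        refine ContinuousAt.rpow_const ?_ (Or.inr (by norm_num))
        fun_prop
      have h3 := h2.tendsto
      have e : ‖(1 - (s : ℂ)) * a ^ 3 + s * r‖ ^ ((3 : ℝ)⁻¹) = 0 := by
        rw [ha, hr0]
        simp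
      change Tendsto _ _ (𝓝 (‖(1 - (s : ℂ)) * a ^ 3 + s * r‖ ^ ((3 : ℝ)⁻¹))) at h3
      rw [e] at h3
      exact h3.mono_left nhdsWithin_le_nhds
    refine h1.congr' ?_
    filter_upwards [self_mem_nhdsWithin] with p hp
    rw [← fc_cube (a := p.1) (r := p.2.1) (s := p.2.2) hp.2.2, norm_pow,
      ← Real.rpow_natCast, ← Real.rpow_mul (norm_nonneg _)]
    norm_num
  · refine ContinuousAt.continuousWithinAt ?_
    have hin := fc_inner h hr hs
    have h1 : ContinuousAt (fun p : ℂ × ℝ × ℝ =>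
        ((1 - (p.2.2 : ℂ)) + p.2.2 * (p.2.1 / p.1 ^ 3))) (a, r, s) := by
      refine ContinuousAt.add (by fun_prop) (ContinuousAt.mul (by fun_prop) ?_)
      exact ContinuousAt.div (by fun_prop) (by fun_prop) (pow_ne_zero 3 ha)
    have h2 : ContinuousAt (fun z : ℂ => z ^ (((3 : ℕ) : ℂ)⁻¹))
        ((1 - (s : ℂ)) + s * (r / a ^ 3)) := by
      refine Complex.continuousAt_cpow_const_of_re_pos hin ?_
      rw [← Complex.ofReal_natCast, ← Complex.ofReal_inv, Complex.ofReal_re]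
      positivity
    have h3 := ContinuousAt.comp (f := fun p : ℂ × ℝ × ℝ =>
        ((1 - (p.2.2 : ℂ)) + p.2.2 * (p.2.1 / p.1 ^ 3))) (x := (a, r, s)) h2 h1
    exact continuousAt_fst.mul h3

theorem cub : T_CUB := by
  refine ⟨fc, fc_cont, fun a r s _ _ h => fc_cube h, fun a r _ _ => ?_, fun a r s hr hs ha => ?_⟩
  · rw [fc, Complex.ofReal_zero, sub_zero, zero_mul, add_zero, Complex.one_cpow, mul_one]
  · obtain ⟨j, hj⟩ := (not_tri_iff a).1 ha
    have hK : IsPreconnected ((fun s' : ℝ => fc a r s') '' Icc (0 : ℝ) 1) := by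
      refine isPreconnected_Icc.image _ ?_
      exact fc_cont.comp (f := fun s' : ℝ => (a, r, s')) (by fun_prop) fun s' hs' =>
        ⟨hr.le, hs', fun h => absurd h ha⟩
    have hsub : ((fun s' : ℝ => fc a r s') '' Icc (0 : ℝ) 1) ⊆
        Sc j ∪ ⋃ i ∈ {i : Fin 3 | i ≠ j}, Sc i := by
      rintro _ ⟨s', hs', rfl⟩
      have h1 : fc a r s' ∉ tri := by
        rw [mem_tri_iff, fc_cube fun h => absurd h ha]
        rw [mem_tri_iff] at ha
        exact slit_aux ha hr hs'
      obtain ⟨i, hi⟩ := (not_tri_iff _).1 h1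
      by_cases hij : i = j
      · left
        rw [← hij]
        exact hi
      · right
        simp only [mem_iUnion]
        exact ⟨i, hij, hi⟩
    have hin := IsPreconnected.subset_left_of_subset_union (Sc_open j)
      (isOpen_biUnion fun i _ => Sc_open i) (by
        rw [Set.disjoint_iUnion₂_right]
        intro i hi
        exact Sc_disj j i (Ne.symm hi)) hsub ⟨a, ⟨0, ⟨le_rfl, zero_le_one⟩, by
          change fc a r 0 = a
          rw [fc, Complex.ofReal_zero, sub_zero, zero_mul, add_zero, Complex.one_cpow,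
            mul_one]⟩, hj⟩ hK
    have h1 : fc a r 1 ∈ Sc j := hin ⟨1, ⟨zero_le_one, le_rfl⟩, rfl⟩
    have hconv : Convex ℝ (Sc j) := by
      obtain ⟨p, q, p', q', h⟩ := Sc_eq j
      rw [h]
      exact (half_cone p q).1.inter (half_cone p' q').1
    have h2 := hconv hj h1 (show 0 ≤ 1 - s by linarith [hs.2]) hs.1 (by ring)
    rw [not_tri_iff]
    refine ⟨j, ?_⟩
    simpa using h2

end Pool.Agent.H27.LB
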