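import Pool.Agent.H82.LB.Targets3
import Pool.Agent.H3.G4.CMD

/-!
MP_ee74d2_an, board lmb_modules, row LNA: non-narrow points give a broad array.
-/

set_option autoImplicit false

namespace Pool.Agent.H27.LB

open MeasureTheory Set
open Pool.Agent.H83.G Pool.Agent.H82.LB
open Pool.Agent.H82.G4 (aw uk T_QNT)
open Pool.Agent.H3.G4.CMD
open scoped ENNReal NNReal RealInnerProductSpace

/-! ### lattice points and cells -/

theorem zc_sep {m : ℕ} (j j' : Zi m) (h : j ≠ j') : 1 ≤ ‖zc j - zc j'‖ := by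
  have hint : ∀ a b : ℤ, a ≠ b → (1 : ℝ) ≤ |(a : ℝ) - b| := by
    intro a b hab
    have h1 : (1 : ℤ) ≤ |a - b| := Int.one_le_abs (sub_ne_zero.mpr hab)
    have h2 : ((1 : ℤ) : ℝ) ≤ ((|a - b| : ℤ) : ℝ) := by exact_mod_cast h1
    simpa using h2
  by_cases h1 : j.1 = j'.1
  · by_cases h2 : j.2.2 = j'.2.2
    · have h3 : j.2.1 ≠ j'.2.1 := by
        intro h3
        exact h (Prod.ext h1 (Prod.ext h3 h2))
      obtain ⟨i, hi⟩ := Function.ne_iff.mp h3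
      have h4 : |((j.2.1 i : ℤ) : ℝ) - (j'.2.1 i : ℝ)| ≤ ‖(zc j - zc j').2.1‖ :=
        PiLp.norm_apply_le (zc j - zc j').2.1 i
      exact (hint _ _ hi).trans (h4.trans ((norm_fst_le (zc j - zc j').2).trans
        (norm_snd_le (zc j - zc j'))))
    · have h4 : |((j.2.2 : ℤ) : ℝ) - (j'.2.2 : ℝ)| ≤ ‖(zc j - zc j').2.2‖ := le_refl _
      exact (hint _ _ h2).trans (h4.trans ((norm_snd_le (zc j - zc j').2).trans
        (norm_snd_le (zc j - zc j'))))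
  · have h4 : |((j.1 : ℤ) : ℝ) - (j'.1 : ℝ)| ≤ ‖(zc j - zc j').1‖ := le_refl _
    exact (hint _ _ h1).trans (h4.trans (norm_fst_le (zc j - zc j')))

/-- a box of lattice points -/
noncomputable def Bx (a b : Zi 2) : Finset (Zi 2) :=
  (Finset.Icc a.1 b.1) ×ˢ (Fintype.piFinset fun i => Finset.Icc (a.2.1 i) (b.2.1 i)) ×ˢ
    (Finset.Icc a.2.2 b.2.2)

theorem card_Icc_le {a b : ℤ} {M : ℝ} (hM : 0 ≤ M) (h : (b : ℝ) + 1 - a ≤ M) :
    ((Finset.Icc a b).card : ℝ) ≤ M := by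
  rw [Int.card_Icc]
  rcases le_or_gt 0 (b + 1 - a) with h1 | h1
  · have h2 : (((b + 1 - a).toNat : ℤ) : ℝ) = ((b + 1 - a : ℤ) : ℝ) := by
      rw [Int.toNat_of_nonneg h1]
    have h3 : (((b + 1 - a).toNat : ℕ) : ℝ) = (((b + 1 - a).toNat : ℤ) : ℝ) := by
      norm_cast
    rw [h3, h2]
    push_cast
    exact h
  · rw [Int.toNat_of_nonpos h1.le]
    simpa using hM

theorem card_Bx_le (a b : Zi 2) {M : ℝ} (hM : 0 ≤ M) (h1 : (b.1 : ℝ) + 1 - a.1 ≤ M)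
    (h2 : ∀ i, (b.2.1 i : ℝ) + 1 - a.2.1 i ≤ M) (h3 : (b.2.2 : ℝ) + 1 - a.2.2 ≤ M) :
    ((Bx a b).card : ℝ) ≤ M ^ 4 := by
  unfold Bx
  rw [Finset.card_product, Finset.card_product, Fintype.card_piFinset, Fin.prod_univ_two]
  push_cast
  have e1 := card_Icc_le hM h1
  have e2 := card_Icc_le hM (h2 0)
  have e3 := card_Icc_le hM (h2 1)
  have e4 := card_Icc_le hM h3
  calc _ ≤ M * ((M * M) * M) := by gcongr
    _ = M ^ 4 := by ring

theorem floor_half {ρ x : ℝ} {j : ℤ} (hρ : 0 < ρ) (h : ⌊x / ρ⌋ = j) :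
    ⌊2 * ρ * j⌋ ≤ ⌊x / (1 / 2)⌋ ∧ ⌊x / (1 / 2)⌋ ≤ ⌊2 * ρ * (j + 1)⌋ := by
  rw [Int.floor_eq_iff, le_div_iff₀ hρ, div_lt_iff₀ hρ] at h
  constructor
  · apply Int.floor_le_floor
    linarith [h.1]
  · apply Int.floor_le_floor
    linarith [h.2]

theorem floor_gap (ρ : ℝ) (hρ : 1 ≤ ρ) (j : ℤ) :
    (⌊2 * ρ * (j + 1)⌋ : ℝ) + 1 - ⌊2 * ρ * j⌋ ≤ 4 * ρ := by
  have h1 := Int.floor_le (2 * ρ * ((j : ℝ) + 1))
  have h2 := Int.lt_floor_add_one (2 * ρ * (j : ℝ))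
  linarith

theorem floor_close {x y : ℝ} (h : ⌊x / (1 / 2)⌋ = ⌊y / (1 / 2)⌋) : |x - y| < 1 / 2 := by
  have h1 := Int.abs_sub_lt_one_of_floor_eq_floor h
  rw [abs_lt] at h1 ⊢
  constructor <;> linarith [h1.1, h1.2]

theorem cb_close {z z' : Z 2} (h : cb (1 / 2) z = cb (1 / 2) z') : ‖z - z'‖ < 1 := by
  unfold cb at h
  rw [Prod.mk.injEq, Prod.mk.injEq] at h
  obtain ⟨h1, h2, h3⟩ := h
  have e1 := floor_close h1
  have e2 := floor_close h3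
  have e3 : ∀ i, |z.2.1 i - z'.2.1 i| < 1 / 2 := fun i => floor_close (congrFun h2 i)
  rw [Prod.norm_def, Prod.norm_def]
  refine max_lt ?_ (max_lt ?_ ?_)
  · have : ‖(z - z').1‖ = |z.1 - z'.1| := rfl
    linarith
  · rw [EuclideanSpace.norm_eq, Fin.sum_univ_two]
    have f1 : ∀ i, ‖(z - z').2.1 i‖ ^ 2 ≤ 1 / 4 := by
      intro i
      have : ‖(z - z').2.1 i‖ = |z.2.1 i - z'.2.1 i| := rfl
      rw [this]
      have := e3 i
      have h0 := abs_nonneg (z.2.1 i - z'.2.1 i)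
      nlinarith
    rw [Real.sqrt_lt' one_pos]
    linarith [f1 0, f1 1]
  · have : ‖(z - z').2.2‖ = |z.2.2 - z'.2.2| := rfl
    change ‖(z - z').2.2‖ < 1
    linarith

open scoped Classical in
theorem count_cell (X : Finset (Z 2)) (hX : Sep X) (ρ : ℝ) (hρ : 1 ≤ ρ) (j : Zi 2) :
    ((X.filter fun z => cb ρ z = j).card : ℝ) ≤ 256 * ρ ^ 4 := by
  have hρ0 : 0 < ρ := by linarith
  set a : Zi 2 := (⌊2 * ρ * j.1⌋, fun i => ⌊2 * ρ * j.2.1 i⌋, ⌊2 * ρ * j.2.2⌋) with ha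
  set b : Zi 2 := (⌊2 * ρ * (j.1 + 1)⌋, fun i => ⌊2 * ρ * (j.2.1 i + 1)⌋,
    ⌊2 * ρ * (j.2.2 + 1)⌋) with hb
  have h1 : (X.filter fun z => cb ρ z = j).card ≤ (Bx a b).card := by
    refine Finset.card_le_card_of_injOn (cb (1 / 2)) ?_ ?_
    · intro z hz
      have hz' := (Finset.mem_filter.1 (Finset.mem_coe.1 hz)).2
      unfold cb at hz'
      rw [← hz'] at ha hb
      unfold Bx
      rw [Finset.mem_coe, Finset.mem_product, Finset.mem_product, Finset.mem_Icc,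
        Fintype.mem_piFinset, Finset.mem_Icc]
      refine ⟨?_, fun i => ?_, ?_⟩
      · rw [ha, hb]
        exact floor_half hρ0 rfl
      · rw [Finset.mem_Icc, ha, hb]
        exact floor_half hρ0 rfl
      · rw [ha, hb]
        exact floor_half hρ0 rfl
    · intro z hz z' hz' h
      by_contra hne
      have h2 := hX z (Finset.mem_filter.1 (Finset.mem_coe.1 hz)).1 z'
        (Finset.mem_filter.1 (Finset.mem_coe.1 hz')).1 hne
      have h3 := cb_close h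
      linarith
  have h2 : ((Bx a b).card : ℝ) ≤ (4 * ρ) ^ 4 := by
    refine card_Bx_le a b (by positivity) ?_ (fun i => ?_) ?_
    · exact floor_gap ρ hρ j.1
    · exact floor_gap ρ hρ (j.2.1 i)
    · exact floor_gap ρ hρ j.2.2
  have h3 : (((X.filter fun z => cb ρ z = j).card : ℕ) : ℝ) ≤ ((Bx a b).card : ℝ) := by
    exact_mod_cast h1
  calc _ ≤ _ := h3
    _ ≤ (4 * ρ) ^ 4 := h2
    _ = 256 * ρ ^ 4 := by ring

/-- the lattice points of norm at most `M` -/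
noncomputable def Ls (M : ℝ) : Finset (Zi 2) :=
  Bx (-⌊M⌋, fun _ => -⌊M⌋, -⌊M⌋) (⌊M⌋, fun _ => ⌊M⌋, ⌊M⌋)

theorem card_Ls {M : ℝ} (hM : 1 ≤ M) : ((Ls M).card : ℝ) ≤ 81 * M ^ 4 := by
  have h := Int.floor_le M
  have h1 : ((Ls M).card : ℝ) ≤ (3 * M) ^ 4 := by
    refine card_Bx_le _ _ (by linarith) ?_ (fun i => ?_) ?_ <;>
    · push_cast
      linarith
  calc _ ≤ _ := h1
    _ = _ := by ring

theorem mem_Ls {M : ℝ} {l : Zi 2} (h : ‖zc l‖ ≤ M) : l ∈ Ls M := by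
  have key : ∀ a : ℤ, |(a : ℝ)| ≤ M → -⌊M⌋ ≤ a ∧ a ≤ ⌊M⌋ := by
    intro a ha
    rw [abs_le] at ha
    constructor
    · rw [neg_le]
      apply Int.le_floor.2
      push_cast
      linarith [ha.1]
    · exact Int.le_floor.2 ha.2
  have h1 : |(l.1 : ℝ)| ≤ M := (norm_fst_le (zc l)).trans h
  have h2 : |(l.2.2 : ℝ)| ≤ M := (norm_snd_le (zc l).2).trans ((norm_snd_le (zc l)).trans h)
  have h3 : ∀ i, |(l.2.1 i : ℝ)| ≤ M := fun i =>
    (PiLp.norm_apply_le (zc l).2.1 i).trans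
      ((norm_fst_le (zc l).2).trans ((norm_snd_le (zc l)).trans h))
  unfold Ls Bx
  rw [Finset.mem_product, Finset.mem_product, Finset.mem_Icc, Fintype.mem_piFinset, Finset.mem_Icc]
  exact ⟨key _ h1, fun i => Finset.mem_Icc.2 (key _ (h3 i)), key _ h2⟩

/-! ### caps -/

theorem ctr_le {s : ℝ} (hs : 0 < s) (hs1 : s ≤ 1) (k : Fin 2 → ℤ) (hk : k ∈ Ks 2 s) :
    ‖ctr s k‖ ≤ 11 := by
  have h1 : ∀ i, |(k i : ℝ)| ≤ 9 / s + 1 := by
    intro i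
    have h2 := Fintype.mem_piFinset.1 hk i
    rw [Finset.mem_Icc] at h2
    have h3 : 3 * (((2 : ℕ) : ℝ) + 1) / s = 9 / s := by norm_num
    rw [h3] at h2
    have h4 : (⌈9 / s⌉ : ℝ) < 9 / s + 1 := Int.ceil_lt_add_one _
    have h5 : (k i : ℝ) ≤ (⌈9 / s⌉ : ℝ) := by exact_mod_cast h2.2
    have h6 : -(⌈9 / s⌉ : ℝ) ≤ (k i : ℝ) := by exact_mod_cast h2.1
    rw [abs_le]
    constructor <;> linarith
  have h2 : ∀ i, ‖(ctr s k) i‖ ≤ 10 / 3 := by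
    intro i
    have h3 : (ctr s k) i = s / (((2 : ℕ) : ℝ) + 1) * (k i : ℝ) := rfl
    rw [h3, norm_mul, Real.norm_eq_abs, Real.norm_eq_abs, abs_of_pos (by positivity)]
    calc s / (((2 : ℕ) : ℝ) + 1) * |(k i : ℝ)| ≤ s / (((2 : ℕ) : ℝ) + 1) * (9 / s + 1) := by
          gcongr
          exact h1 i
      _ = 3 + s / 3 := by
          field_simp
          norm_num
          ring
      _ ≤ 10 / 3 := by linarith
  rw [EuclideanSpace.norm_eq, Fin.sum_univ_two, Real.sqrt_le_left (by norm_num)]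
  have h3 := h2 0
  have h4 := h2 1
  have h5 := norm_nonneg ((ctr s k) 0)
  have h6 := norm_nonneg ((ctr s k) 1)
  nlinarith

theorem energy_caps (hPUS : T_PUS) {β : E 2 → ℂ} (hβ : IsPU β) {s : ℝ} (hs : 0 < s) (hs1 : s ≤ 1)
    {G : Z 2 → ℂ} (hG : TC G) (hG1 : ∀ ζ, G ζ ≠ 0 → ‖ζ.1⁻¹ • ζ.2.1‖ ≤ 3 / 2)
    (hGk : ∀ k, TC (fun ζ => cp β (ctr s k) s ζ * G ζ)) :
    ∑ k ∈ Ks 2 s, ∫ ζ, ‖cp β (ctr s k) s ζ * G ζ‖ ^ 2 ≤ ∫ ζ, ‖G ζ‖ ^ 2 := by
  rw [← integral_finsetSum _ fun k _ => Pool.Agent.H90.G.TC_int (hGk k)]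
  refine integral_mono (integrable_finsetSum _ fun k _ => Pool.Agent.H90.G.TC_int (hGk k))
    (Pool.Agent.H90.G.TC_int hG) fun ζ => ?_
  simp only
  by_cases h0 : G ζ = 0
  · rw [h0]
    simp
  have h1 := ((hPUS 2).1 β s hβ hs).2 hs1 ζ (hG1 ζ h0)
  have h2 : ∀ k, ∃ r : ℝ, 0 ≤ r ∧ r ≤ 1 ∧ cp β (ctr s k) s ζ = (r : ℂ) := fun k =>
    hβ.2.2.1 _
  choose r hr0 hr1 hr using h2
  have h3 : ∑ k ∈ Ks 2 s, r k = 1 := by
    have h4 : ((∑ k ∈ Ks 2 s, r k : ℝ) : ℂ) = ((1 : ℝ) : ℂ) := by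
      push_cast
      rw [← h1]
      exact Finset.sum_congr rfl fun k _ => (hr k).symm
    exact_mod_cast h4
  have h5 : ∀ k, ‖cp β (ctr s k) s ζ * G ζ‖ ^ 2 = r k ^ 2 * ‖G ζ‖ ^ 2 := by
    intro k
    rw [norm_mul, hr k, Complex.norm_real, Real.norm_of_nonneg (hr0 k)]
    ring
  simp only [h5]
  rw [← Finset.sum_mul]
  have h6 : ∑ k ∈ Ks 2 s, r k ^ 2 ≤ 1 := by
    rw [← h3]
    refine Finset.sum_le_sum fun k _ => ?_
    have := hr0 k
    have := hr1 k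
    nlinarith
  exact mul_le_of_le_one_left (by positivity) h6

theorem aw_le {N : ℕ} {K D B : ℝ} {f : Z 2 → ℂ} {j : Zi 2} (hD : 0 ≤ D) (hB : ∀ z, ‖f z‖ ≤ B) :
    aw N K D f j ≤ ENNReal.ofReal (B * ((1 + D) ^ N)⁻¹) := by
  unfold Pool.Agent.H82.G4.aw
  refine iSup₂_le fun z hz => ?_
  rw [← ofReal_norm, ← ENNReal.ofReal_mul (norm_nonneg _)]
  apply ENNReal.ofReal_le_ofReal
  have h1 : wt N (K⁻¹ ^ 2 • z - zc j) ≤ ((1 + D) ^ N)⁻¹ := by
    unfold wt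
    gcongr
  have h2 : 0 ≤ wt N (K⁻¹ ^ 2 • z - zc j) := by
    unfold wt
    positivity
  have h3 : 0 ≤ B := (norm_nonneg _).trans (hB z)
  exact mul_le_mul (hB z) h1 h2 h3

theorem supp20 {κ R : ℝ} (hκ : κ ≤ 1 / 2) (hR : 1 ≤ R) {ζ : Z 2}
    (h : ζ ∈ Rg 2 κ R⁻¹) : ‖ζ‖ ≤ 20 ∧ ‖ζ.1⁻¹ • ζ.2.1‖ ≤ 3 / 2 := by
  obtain ⟨h1, h2, h3, h4⟩ := h
  have h0 : 0 < ζ.1 := by linarith
  have e1 : ‖ζ.2.1‖ ≤ 3 / 2 * ζ.1 := h3.trans (by gcongr; linarith)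
  have e2 : ‖ζ.2.1‖ ^ 2 / ζ.1 ≤ 11 := by
    rw [div_le_iff₀ h0]
    have := norm_nonneg ζ.2.1
    nlinarith
  have e3 : 0 ≤ ‖ζ.2.1‖ ^ 2 / ζ.1 := by positivity
  have e4 : (1 + κ) * R⁻¹ ≤ 3 / 2 := by
    have : R⁻¹ ≤ 1 := inv_le_one_of_one_le₀ hR
    have : 0 ≤ R⁻¹ := by positivity
    nlinarith
  refine ⟨?_, ?_⟩
  · rw [Prod.norm_def, Prod.norm_def]
    refine max_le ?_ (max_le ?_ ?_)
    · rw [Real.norm_eq_abs, abs_of_pos h0]
      linarith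
    · linarith
    · rw [Real.norm_eq_abs, abs_le]
      rw [abs_le] at h4
      constructor <;> linarith [h4.1, h4.2]
  · rw [norm_smul, norm_inv, Real.norm_eq_abs, abs_of_pos h0, inv_mul_le_iff₀ h0]
    linarith

theorem Cls_monoA {m L : ℕ} {κ R A A' : ℝ} {G : Z m → ℂ} (hR : 0 < R) (hA : 0 ≤ A) (h : A ≤ A')
    (hG : Cls L κ R A G) : Cls L κ R A' G := by
  refine ⟨hG.1, hG.2.1, fun φ hφ η s r z₀ hs hs1 hr hrR =>
    (hG.2.2 φ hφ η s r z₀ hs hs1 hr hrR).trans ?_⟩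
  apply ENNReal.ofReal_le_ofReal
  have hr0 : 0 < r := by linarith
  gcongr

/-- LNA: non-narrow points give a broad array at the corners of the cells -/
theorem pf_LNA (hQNT : T_QNT) (hCPU : T_CPU) (hSPK : T_SPK) (hPUS : T_PUS) : T_LNA := by
  classical
  intro L N β hL hN hβ
  obtain ⟨c, Cq, hc, hCq, hqnt⟩ := hQNT 2 N 20
  obtain ⟨Cu, hCu, hcpu⟩ := hCPU 2 L β hβ (by omega)
  obtain ⟨Cs, hCs, hspk⟩ := hSPK 2 L β hβ
  obtain ⟨-, -, Cp, hCp, hcard, -, -⟩ := hPUS 2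
  obtain ⟨C, hC⟩ : ∃ C : ℝ, C = 1 + 81 * Cp * Cq ^ 4 + Cu + 256 + 81 * Cq ^ 4 + 4 * Cs * Cu + Cq :=
    ⟨_, rfl⟩
  have hCq0 : 0 < Cq := by linarith
  have hCu0 : 0 < Cu := by linarith
  have p1 : 0 ≤ 81 * Cp * Cq ^ 4 := by positivity
  have p2 : 0 ≤ 81 * Cq ^ 4 := by positivity
  have p3 : 0 < Cs * Cu := by positivity
  have p4 : 0 < 4 * Cs * Cu := by positivity
  have hC0 : 0 < C := by rw [hC]; linarith
  have c1 : 81 * Cp * Cq ^ 4 ≤ C := by rw [hC]; linarith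
  have c2 : Cu ≤ C := by rw [hC]; linarith
  have c3 : 256 ≤ C := by rw [hC]; linarith
  have c4 : 81 * Cq ^ 4 ≤ C := by rw [hC]; linarith
  have c5 : Cq ≤ C := by rw [hC]; linarith
  have c6 : 2 * Cs * Cu < C := by rw [hC]; linarith
  refine ⟨C, by linarith, ?_⟩
  intro κ R K D A H n G X hκ0 hκ hR hK hD hA hH hbig hG hX hnar
  have hK0 : 0 < K := by linarith
  set K' : ℝ := K ^ 6 with hK'
  have hK'1 : 1 ≤ K' := one_le_pow₀ hK
  have hK'0 : 0 < K' := by linarith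
  have hs0 : 0 < K'⁻¹ := inv_pos.2 hK'0
  have hs1 : K'⁻¹ ≤ 1 := inv_le_one_of_one_le₀ hK'1
  set M : ℝ := Cq * D * K' ^ 2 with hM
  have hM1 : 1 ≤ M := by
    have h1 : 1 ≤ Cq * D := one_le_mul_of_one_le_of_one_le hCq hD
    have h2 : 1 ≤ K' ^ 2 := one_le_pow₀ hK'1
    exact one_le_mul_of_one_le_of_one_le h1 h2
  -- the pieces
  set Gk : (Fin 2 → ℤ) → Z 2 → ℂ := fun k ζ => cp β (ctr K'⁻¹ k) K'⁻¹ ζ * G ζ with hGk
  have hcls : ∀ k, Cls L κ R (Cu * A) (Gk k) := fun k =>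
    hcpu κ R A K'⁻¹ G (ctr K'⁻¹ k) hκ0 hκ hR hA hs0 hG
  have hsup : ∀ k z, ‖TF (Gk k) z‖ ≤ Cs * (Cu * A) * R := by
    intro k z
    have h1 := (hspk κ R (Cu * A) (Gk k) hκ0 hκ hR (by positivity) (hcls k)).2 z
    have h2 : R ^ (((2 : ℕ) : ℝ) / 2) = R := by
      norm_num
    rwa [h2] at h1
  have hsupp : ∀ k ζ, Gk k ζ ≠ 0 → ‖ζ‖ ≤ 20 := by
    intro k ζ h
    exact (supp20 hκ hR (hG.2.1 ζ (right_ne_zero_of_mul h))).1
  set I : Finset ((Fin 2 → ℤ) × Zi 2) := Ks 2 K'⁻¹ ×ˢ Ls M with hI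
  set G' : (Fin 2 → ℤ) × Zi 2 → Z 2 → ℂ := fun k ζ => e (ph (c • zc k.2) ζ) * Gk k.1 ζ with hG'
  set J : Finset (Zi 2) := X.image (cb (K' ^ 2)) with hJ
  set Y : Finset (Z 2) := J.image (fun j => K' ^ 2 • zc j) with hY
  have hρ1 : 1 ≤ K' ^ 2 := one_le_pow₀ hK'1
  have hρ0 : 0 < K' ^ 2 := by linarith
  have hsep : ∀ j j' : Zi 2, j ≠ j' → 1 ≤ ‖K' ^ 2 • zc j - K' ^ 2 • zc j'‖ := by
    intro j j' h
    rw [← smul_sub, norm_smul, Real.norm_eq_abs, abs_of_pos hρ0]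
    exact one_le_mul_of_one_le_of_one_le hρ1 (zc_sep j j' h)
  have hYJ : Y.card = J.card := by
    refine Finset.card_image_of_injective _ ?_
    intro j j' h
    by_contra hne
    have h1 := hsep j j' hne
    have h2 : K' ^ 2 • zc j = K' ^ 2 • zc j' := h
    rw [h2, sub_self, norm_zero] at h1
    linarith
  have hLs : ((Ls M).card : ℝ) ≤ 81 * Cq ^ 4 * D ^ 4 * K ^ 48 := by
    refine (card_Ls hM1).trans (le_of_eq ?_)
    rw [hM, hK']
    ring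
  refine ⟨I, G', Y, ?_, ?_, ?_, ?_, ?_, ?_, ?_⟩
  · -- the number of functions
    rw [hI, Finset.card_product]
    push_cast
    have h1 := hcard K'⁻¹ hs0 hs1
    rw [inv_inv] at h1
    calc ((Ks 2 K'⁻¹).card : ℝ) * ((Ls M).card : ℝ)
        ≤ (Cp * K' ^ 2) * (81 * Cq ^ 4 * D ^ 4 * K ^ 48) := by gcongr
      _ = (81 * Cp * Cq ^ 4) * D ^ 4 * K ^ 60 := by rw [hK']; ring
      _ ≤ C * D ^ 4 * K ^ 60 := by
          gcongr
  · -- the centres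
    intro k hk
    exact ctr_le hs0 hs1 k.1 (Finset.mem_product.1 hk).1
  · -- the class
    intro k hk
    refine ⟨?_, ?_⟩
    · have h1 : Cu * A ≤ C * A := by
        gcongr
      exact Cls_monoA (by linarith) (by positivity) h1 (Cls_mod (hcls k.1) _)
    · intro ζ hζ
      have h1 : Gk k.1 ζ ≠ 0 := right_ne_zero_of_mul hζ
      have h2 : cp β (ctr K'⁻¹ k.1) K'⁻¹ ζ ≠ 0 := left_ne_zero_of_mul h1
      have h3 : ‖(K'⁻¹)⁻¹ • (ζ.1⁻¹ • ζ.2.1 - ctr K'⁻¹ k.1)‖ < 1 := by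
        by_contra h4
        exact h2 (hβ.2.1 _ (not_lt.1 h4))
      rw [norm_smul, norm_inv, norm_inv, inv_inv, Real.norm_eq_abs, abs_of_pos hK'0] at h3
      have h4 : ‖ζ.1⁻¹ • ζ.2.1 - ctr K'⁻¹ k.1‖ ≤ K'⁻¹ := by
        have h5 : ‖ζ.1⁻¹ • ζ.2.1 - ctr K'⁻¹ k.1‖ =
            (K' * ‖ζ.1⁻¹ • ζ.2.1 - ctr K'⁻¹ k.1‖) * K'⁻¹ := by
          field_simp
        rw [h5]
        calc (K' * ‖ζ.1⁻¹ • ζ.2.1 - ctr K'⁻¹ k.1‖) * K'⁻¹ ≤ 1 * K'⁻¹ := by gcongr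
          _ = K'⁻¹ := one_mul _
      refine h4.trans ?_
      have : 0 ≤ κ * K'⁻¹ := by positivity
      linarith
  · -- separation
    intro z hz z' hz' hne
    obtain ⟨j, -, rfl⟩ := Finset.mem_image.1 hz
    obtain ⟨j', -, rfl⟩ := Finset.mem_image.1 hz'
    exact hsep j j' fun h => hne (by rw [h])
  · -- the number of points
    have h1 : X.card = ∑ j ∈ J, (X.filter fun z => cb (K' ^ 2) z = j).card :=
      Finset.card_eq_sum_card_image _ _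
    rw [h1]
    push_cast
    calc ∑ j ∈ J, ((X.filter fun z => cb (K' ^ 2) z = j).card : ℝ)
        ≤ ∑ j ∈ J, 256 * (K' ^ 2) ^ 4 := Finset.sum_le_sum fun j _ => count_cell X hX _ hρ1 j
      _ = 256 * K ^ 48 * Y.card := by
          rw [Finset.sum_const, nsmul_eq_mul, hYJ, hK']
          ring
      _ ≤ C * K ^ 48 * Y.card := by
          gcongr
  · -- the energy
    have h1 : ∀ k : (Fin 2 → ℤ) × Zi 2, ∫ ζ, ‖G' k ζ‖ ^ 2 = ∫ ζ, ‖Gk k.1 ζ‖ ^ 2 := by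
      intro k
      simp only [hG', norm_mul (e _), norm_e, one_mul]
    simp only [h1]
    rw [hI, Finset.sum_product]
    simp only [Finset.sum_const, nsmul_eq_mul]
    rw [← Finset.mul_sum]
    have h2 := energy_caps hPUS hβ hs0 hs1 hG.1
      (fun ζ h => (supp20 hκ hR (hG.2.1 ζ h)).2) (fun k => (hcls k).1)
    have h3 : 0 ≤ ∫ ζ, ‖G ζ‖ ^ 2 := integral_nonneg fun _ => by positivity
    have h4 : 0 ≤ ∑ k ∈ Ks 2 K'⁻¹, ∫ ζ, ‖Gk k ζ‖ ^ 2 :=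
      Finset.sum_nonneg fun k _ => integral_nonneg fun _ => by positivity
    calc ((Ls M).card : ℝ) * ∑ k ∈ Ks 2 K'⁻¹, ∫ ζ, ‖Gk k ζ‖ ^ 2
        ≤ (81 * Cq ^ 4 * D ^ 4 * K ^ 48) * ∫ ζ, ‖G ζ‖ ^ 2 := by gcongr
      _ ≤ C * D ^ 4 * K ^ 48 * ∫ ζ, ‖G ζ‖ ^ 2 := by
          gcongr
  · -- broadness
    intro z hz V hV
    obtain ⟨j, hj, rfl⟩ := Finset.mem_image.1 hz
    obtain ⟨x, hx, rfl⟩ := Finset.mem_image.1 hj
    have h1 := hnar x hx
    unfold Nar at h1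
    push Not at h1
    obtain ⟨k, hk, haw, hdist⟩ := h1 V fun i h => by
      have := hV i
      rw [h, norm_zero] at this
      exact zero_ne_one this
    have hzp : (K : ℝ) ^ (-100 : ℤ) = (K ^ 100)⁻¹ := by
      rw [zpow_neg]
      norm_cast
    rw [hzp] at haw
    have hK100 : 0 < K ^ 100 := by positivity
    have hawTF : aw N K' 0 (uk β K' G k) (cb (K' ^ 2) x) =
        aw N K' 0 (TF (Gk k)) (cb (K' ^ 2) x) := rfl
    rw [hawTF] at haw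
    rcases hqnt K' D (Gk k) (cb (K' ^ 2) x) hK'1 hD (hcls k).1 (hsupp k) with h2 | ⟨l, hl, h2⟩
    · exfalso
      have h3 := aw_le (N := N) (K := K') (j := cb (K' ^ 2) x) (by linarith : (0 : ℝ) ≤ D) (hsup k)
      have h4 : ENNReal.ofReal ((K ^ 100)⁻¹ * H) ≤
          ENNReal.ofReal (2 * (Cs * (Cu * A) * R * ((1 + D) ^ N)⁻¹)) := by
        rw [ENNReal.ofReal_mul (by norm_num : (0 : ℝ) ≤ 2)]
        refine haw.trans (h2.trans ?_)
        have : ENNReal.ofReal 2 = 2 := by norm_num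
        rw [this]
        gcongr
      rw [ENNReal.ofReal_le_ofReal_iff (by positivity)] at h4
      have h5 : H * (1 + D) ^ N ≤ 2 * (Cs * (Cu * A) * R) * K ^ 100 := by
        have e1 : H * (1 + D) ^ N = ((K ^ 100)⁻¹ * H) * (K ^ 100 * (1 + D) ^ N) := by
          field_simp
        have e2 : 2 * (Cs * (Cu * A) * R) * K ^ 100 =
            (2 * (Cs * (Cu * A) * R * ((1 + D) ^ N)⁻¹)) * (K ^ 100 * (1 + D) ^ N) := by
          field_simp
        rw [e1, e2]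
        gcongr
      have h6 : D ^ N * H ≤ H * (1 + D) ^ N := by
        rw [mul_comm]
        gcongr
        linarith
      have h7 : C * (A * R * K ^ 100) ≤ (2 * Cs * Cu) * (A * R * K ^ 100) := by
        calc C * (A * R * K ^ 100) = C * A * R * K ^ 100 := by ring
          _ ≤ D ^ N * H := hbig
          _ ≤ H * (1 + D) ^ N := h6
          _ ≤ _ := h5
          _ = _ := by ring
      have h8 : 0 < A * R * K ^ 100 := by positivity
      have h9 : C ≤ 2 * Cs * Cu := le_of_mul_le_mul_right h7 h8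
      linarith
    · refine ⟨(k, l), ?_, ?_, ?_⟩
      · rw [hI, Finset.mem_product]
        exact ⟨hk, mem_Ls hl⟩
      · have h3 : TF (G' (k, l)) (K' ^ 2 • zc (cb (K' ^ 2) x)) =
            TF (Gk k) (K' ^ 2 • zc (cb (K' ^ 2) x) + c • zc l) := TF_mod _ _ _
        change H / (C * K ^ 100) ≤ ‖TF (G' (k, l)) (K' ^ 2 • zc (cb (K' ^ 2) x))‖
        rw [h3]
        have h4 := haw.trans h2
        rw [← ofReal_norm, ← ENNReal.ofReal_mul (by positivity),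
          ENNReal.ofReal_le_ofReal_iff (by positivity)] at h4
        rw [div_le_iff₀ (by positivity)]
        have h5 : H ≤ Cq * ‖TF (Gk k) (K' ^ 2 • zc (cb (K' ^ 2) x) + c • zc l)‖ * K ^ 100 := by
          have e1 : H = ((K ^ 100)⁻¹ * H) * K ^ 100 := by field_simp
          rw [e1]
          gcongr
        calc H ≤ _ := h5
          _ ≤ C * ‖TF (Gk k) (K' ^ 2 • zc (cb (K' ^ 2) x) + c • zc l)‖ * K ^ 100 := by gcongr
          _ = _ := by ring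
      · intro i η hη
        have h3 : η ∈ CirZ (V i) := by
          change (V i).1 + ⟪(V i).2.1, η⟫ + (V i).2.2 * ‖η‖ ^ 2 = 0
          unfold ph Pool.Agent.H22.G4.nv at hη
          rw [real_inner_comm] at hη
          simp only at hη
          linarith
        exact (hdist i η h3).le

end Pool.Agent.H27.LB
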