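import Pool.Agent.H64.LB.Targets

/-!
Module L-TRI of the LB project (MP_2059f1_ag): the complement of the tripod.
-/

set_option autoImplicit false

open Topology Set

namespace Pool.Agent.H27.LB

open Pool.Agent.H64.LB

/-- the three sectors -/
noncomputable def Sc : Fin 3 → Set ℂ
  | 0 => {t | t.im < √3 * t.re ∧ -t.im < √3 * t.re}
  | 1 => {t | 0 < t.im ∧ √3 * t.re < t.im}
  | 2 => {t | 0 < -t.im ∧ √3 * t.re < -t.im}

lemma cube_re (a : ℂ) : (a ^ 3).re = a.re * (a.re ^ 2 - 3 * a.im ^ 2) := by
  simp only [pow_succ, pow_zero, one_mul, Complex.mul_re, Complex.mul_im]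
  ring

lemma cube_im (a : ℂ) : (a ^ 3).im = a.im * (3 * a.re ^ 2 - a.im ^ 2) := by
  simp only [pow_succ, pow_zero, one_mul, Complex.mul_re, Complex.mul_im]
  ring

lemma mem_tri_iff (a : ℂ) : a ∈ tri ↔ (a ^ 3).im = 0 ∧ (a ^ 3).re ≤ 0 := by
  constructor
  · rintro ⟨t, ht, h⟩
    rw [h]
    exact ⟨Complex.ofReal_im t, by simpa using ht⟩
  · rintro ⟨h1, h2⟩
    exact ⟨(a ^ 3).re, h2, Complex.ext (by simp) (by simp [h1])⟩

lemma tri_closed : IsClosed tri := by
  have h : tri = (fun a : ℂ => (a ^ 3).im) ⁻¹' {0} ∩ (fun a : ℂ => (a ^ 3).re) ⁻¹' Iic 0 := by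
    ext a
    rw [mem_tri_iff]
    rfl
  rw [h]
  exact (isClosed_singleton.preimage (by fun_prop)).inter (isClosed_Iic.preimage (by fun_prop))

lemma sec_iff (x y : ℝ) : (¬ (y * (3 * x ^ 2 - y ^ 2) = 0 ∧ x * (x ^ 2 - 3 * y ^ 2) ≤ 0)) ↔
    (y < √3 * x ∧ -y < √3 * x) ∨ (0 < y ∧ √3 * x < y) ∨ (0 < -y ∧ √3 * x < -y) := by
  obtain ⟨s, hs⟩ : ∃ s : ℝ, s = √3 := ⟨_, rfl⟩
  have hs2 : s ^ 2 = 3 := by rw [hs]; norm_num
  have hs0 : 0 < s := by rw [hs]; positivity
  rw [← hs]
  have e1 : 3 * x ^ 2 - y ^ 2 = (s * x - y) * (s * x + y) := by rw [← hs2]; ring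
  rw [e1]
  constructor
  · intro h
    rcases lt_trichotomy y 0 with hy | hy | hy
    · rcases lt_trichotomy (s * x) (-y) with h1 | h1 | h1
      · exact Or.inr (Or.inr ⟨by linarith, h1⟩)
      · exfalso
        have hx : 0 < x := by
          by_contra hx
          push Not at hx
          have := mul_nonpos_of_nonneg_of_nonpos hs0.le hx
          linarith
        refine h ⟨?_, ?_⟩
        · rw [h1]; ring
        · have h2 : y ^ 2 = 3 * x ^ 2 := by
            have : y = -(s * x) := by linarith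
            rw [this, neg_sq, mul_pow, hs2]
          rw [h2]
          have : x * (x ^ 2 - 3 * (3 * x ^ 2)) = -8 * x ^ 3 := by ring
          rw [this]
          have := pow_pos hx 3
          linarith
      · exact Or.inl ⟨by linarith, h1⟩
    · subst hy
      rcases le_or_gt x 0 with hx | hx
      · exfalso
        refine h ⟨by ring, ?_⟩
        have : x * (x ^ 2 - 3 * 0 ^ 2) = x * x ^ 2 := by ring
        rw [this]
        exact mul_nonpos_of_nonpos_of_nonneg hx (sq_nonneg x)
      · have : 0 < s * x := mul_pos hs0 hx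
        exact Or.inl ⟨this, by linarith⟩
    · rcases lt_trichotomy (s * x) y with h1 | h1 | h1
      · exact Or.inr (Or.inl ⟨hy, h1⟩)
      · exfalso
        have hx : 0 < x := by
          by_contra hx
          push Not at hx
          have := mul_nonpos_of_nonneg_of_nonpos hs0.le hx
          linarith
        refine h ⟨?_, ?_⟩
        · rw [h1]; ring
        · have h2 : y ^ 2 = 3 * x ^ 2 := by
            rw [← h1, mul_pow, hs2]
          rw [h2]
          have : x * (x ^ 2 - 3 * (3 * x ^ 2)) = -8 * x ^ 3 := by ring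
          rw [this]
          have := pow_pos hx 3
          linarith
      · exact Or.inl ⟨h1, by linarith⟩
  · rintro (⟨h1, h2⟩ | ⟨h1, h2⟩ | ⟨h1, h2⟩) ⟨h3, h4⟩
    · have hx : 0 < x := by
        have : 0 < s * x := by linarith
        exact (mul_pos_iff_of_pos_left hs0).1 this
      have h5 : y = 0 := by
        rcases mul_eq_zero.1 h3 with h | h
        · exact h
        · rcases mul_eq_zero.1 h with h | h <;> linarith
      rw [h5] at h4
      have : x * (x ^ 2 - 3 * 0 ^ 2) = x ^ 3 := by ring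
      rw [this] at h4
      have := pow_pos hx 3
      linarith
    · have h5 : s * x = -y := by
        rcases mul_eq_zero.1 h3 with h | h
        · linarith
        · rcases mul_eq_zero.1 h with h | h <;> linarith
      have hx : x < 0 := by
        by_contra hx
        push Not at hx
        have := mul_nonneg hs0.le hx
        linarith
      have h6 : y ^ 2 = 3 * x ^ 2 := by
        have : y = -(s * x) := by linarith
        rw [this, neg_sq, mul_pow, hs2]
      rw [h6] at h4
      have h7 : x * (x ^ 2 - 3 * (3 * x ^ 2)) = 8 * (-x) ^ 3 := by ring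
      rw [h7] at h4
      have := pow_pos (neg_pos.2 hx) 3
      linarith
    · have h5 : s * x = y := by
        rcases mul_eq_zero.1 h3 with h | h
        · linarith
        · rcases mul_eq_zero.1 h with h | h <;> linarith
      have hx : x < 0 := by
        by_contra hx
        push Not at hx
        have := mul_nonneg hs0.le hx
        linarith
      have h6 : y ^ 2 = 3 * x ^ 2 := by
        rw [← h5, mul_pow, hs2]
      rw [h6] at h4
      have h7 : x * (x ^ 2 - 3 * (3 * x ^ 2)) = 8 * (-x) ^ 3 := by ring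
      rw [h7] at h4
      have := pow_pos (neg_pos.2 hx) 3
      linarith

/-- an open half plane given by a real linear form -/
lemma half_cone (p q : ℝ) : Convex ℝ {t : ℂ | 0 < p * t.re + q * t.im} ∧
    ∀ a ∈ {t : ℂ | 0 < p * t.re + q * t.im}, ∀ r : ℝ, 0 < r →
      (r : ℂ) * a ∈ {t : ℂ | 0 < p * t.re + q * t.im} := by
  constructor
  · intro a ha b hb u v hu hv huv
    simp only [mem_ofPred_eq] at ha hb ⊢
    simp only [Complex.add_re, Complex.add_im, Complex.real_smul, Complex.mul_re, Complex.mul_im,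
      Complex.ofReal_re, Complex.ofReal_im, zero_mul, sub_zero, add_zero]
    have e : p * (u * a.re + v * b.re) + q * (u * a.im + v * b.im) =
        u * (p * a.re + q * a.im) + v * (p * b.re + q * b.im) := by ring
    rw [e]
    rcases hu.eq_or_lt with h | h
    · have hv1 : v = 1 := by linarith
      rw [← h, hv1, zero_mul, zero_add, one_mul]
      exact hb
    · have := mul_pos h ha
      have := mul_nonneg hv hb.le
      linarith
  · intro a ha r hr
    simp only [mem_ofPred_eq] at ha ⊢
    simp only [Complex.mul_re, Complex.mul_im, Complex.ofReal_re, Complex.ofReal_im, zero_mul,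
      sub_zero, add_zero]
    have e : p * (r * a.re) + q * (r * a.im) = r * (p * a.re + q * a.im) := by ring
    rw [e]
    exact mul_pos hr ha

lemma Sc_eq (j : Fin 3) : ∃ p q p' q' : ℝ, Sc j =
    {t : ℂ | 0 < p * t.re + q * t.im} ∩ {t : ℂ | 0 < p' * t.re + q' * t.im} := by
  fin_cases j
  · refine ⟨√3, -1, √3, 1, ?_⟩
    ext t
    simp only [Sc, mem_inter_iff, mem_ofPred_eq]
    constructor
    · rintro ⟨h1, h2⟩
      exact ⟨by linarith, by linarith⟩
    · rintro ⟨h1, h2⟩
      exact ⟨by linarith, by linarith⟩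
  · refine ⟨0, 1, -√3, 1, ?_⟩
    ext t
    simp only [Sc, mem_inter_iff, mem_ofPred_eq]
    constructor
    · rintro ⟨h1, h2⟩
      exact ⟨by linarith, by linarith⟩
    · rintro ⟨h1, h2⟩
      exact ⟨by linarith, by linarith⟩
  · refine ⟨0, -1, -√3, -1, ?_⟩
    ext t
    simp only [Sc, mem_inter_iff, mem_ofPred_eq]
    constructor
    · rintro ⟨h1, h2⟩
      exact ⟨by linarith, by linarith⟩
    · rintro ⟨h1, h2⟩
      exact ⟨by linarith, by linarith⟩

lemma half_open (p q : ℝ) : IsOpen {t : ℂ | 0 < p * t.re + q * t.im} :=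
  isOpen_lt continuous_const (by fun_prop)

lemma Sc_open (j : Fin 3) : IsOpen (Sc j) := by
  obtain ⟨p, q, p', q', h⟩ := Sc_eq j
  rw [h]
  exact (half_open p q).inter (half_open p' q')

lemma Sc_disj (i j : Fin 3) (h : i ≠ j) : Disjoint (Sc i) (Sc j) := by
  rw [Set.disjoint_left]
  intro a ha hb
  fin_cases i <;> fin_cases j <;> simp only [Sc, mem_ofPred_eq] at ha hb <;>
    first
    | exact h rfl
    | (obtain ⟨h1, h2⟩ := ha
       obtain ⟨h3, h4⟩ := hb
       linarith)

lemma root_re_im (j : Fin 3) : (C3.root j).1 =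
    (Real.cos (2 * Real.pi * (j : ℕ) / 3) : ℂ) + (Real.sin (2 * Real.pi * (j : ℕ) / 3) : ℂ) *
      Complex.I := by
  rw [C3.root, Complex.ofReal_cos, Complex.ofReal_sin, ← Complex.exp_mul_I]
  push_cast
  ring_nf

lemma root_mem (j : Fin 3) : (C3.root j).1 ∈ Sc j := by
  have h3 : (0 : ℝ) < √3 := by positivity
  have h33 : √3 * √3 = 3 := Real.mul_self_sqrt (by norm_num)
  have hc : Real.cos (2 * Real.pi * 1 / 3) = -(1 / 2) := by
    rw [show 2 * Real.pi * 1 / 3 = Real.pi - Real.pi / 3 by ring, Real.cos_pi_sub,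
      Real.cos_pi_div_three]
  have hsn : Real.sin (2 * Real.pi * 1 / 3) = √3 / 2 := by
    rw [show 2 * Real.pi * 1 / 3 = Real.pi - Real.pi / 3 by ring, Real.sin_pi_sub,
      Real.sin_pi_div_three]
  have hc2 : Real.cos (2 * Real.pi * 2 / 3) = -(1 / 2) := by
    rw [show 2 * Real.pi * 2 / 3 = Real.pi / 3 + Real.pi by ring, Real.cos_add_pi,
      Real.cos_pi_div_three]
  have hsn2 : Real.sin (2 * Real.pi * 2 / 3) = -(√3 / 2) := by
    rw [show 2 * Real.pi * 2 / 3 = Real.pi / 3 + Real.pi by ring, Real.sin_add_pi,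
      Real.sin_pi_div_three]
  have hre : (C3.root j).1.re = Real.cos (2 * Real.pi * (j : ℕ) / 3) := by
    rw [root_re_im]
    simp only [Complex.add_re, Complex.mul_re, Complex.ofReal_re, Complex.ofReal_im, Complex.I_re,
      Complex.I_im]
    ring
  have him : (C3.root j).1.im = Real.sin (2 * Real.pi * (j : ℕ) / 3) := by
    rw [root_re_im]
    simp only [Complex.add_im, Complex.mul_im, Complex.ofReal_re, Complex.ofReal_im, Complex.I_re,
      Complex.I_im]
    ring
  fin_cases j
  · change _ ∧ _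
    rw [hre, him]
    simp
  · change _ ∧ _
    rw [hre, him]
    simp only [Nat.cast_one]
    rw [hc, hsn]
    exact ⟨by linarith, by linarith⟩
  · change _ ∧ _
    rw [hre, him]
    simp only [Nat.cast_ofNat]
    rw [hc2, hsn2]
    exact ⟨by linarith, by linarith⟩

lemma not_tri_iff (a : ℂ) : a ∉ tri ↔ ∃ j, a ∈ Sc j := by
  rw [mem_tri_iff, cube_re, cube_im, sec_iff]
  constructor
  · rintro (h | h | h)
    · exact ⟨0, h⟩
    · exact ⟨1, h⟩
    · exact ⟨2, h⟩
  · rintro ⟨j, hj⟩
    fin_cases j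
    · exact Or.inl hj
    · exact Or.inr (Or.inl hj)
    · exact Or.inr (Or.inr hj)

theorem tri' : T_TRI := by
  refine ⟨Sc, Sc_open, fun j => ?_, Sc_disj, root_mem, not_tri_iff, fun j => ?_, tri_closed⟩
  · obtain ⟨p, q, p', q', h⟩ := Sc_eq j
    rw [h]
    exact (half_cone p q).1.inter (half_cone p' q').1
  · obtain ⟨p, q, p', q', h⟩ := Sc_eq j
    rw [h]
    intro a ha r hr
    exact ⟨(half_cone p q).2 a ha.1 r hr, (half_cone p' q').2 a ha.2 r hr⟩

end Pool.Agent.H27.LB
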