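import Pool.Agent.H64.LB.Targets

/-!
Module L-VK of the LB project (MP_2059f1_ag): a union of two simply connected open sets with path
connected intersection is simply connected.
-/

set_option autoImplicit false

open Topology Set
open scoped unitInterval

namespace Pool.Agent.H27.LB

open Pool.Agent.H64.LB

variable {X : Type} [TopologicalSpace X]

lemma homotopic_of_mem {U : Set X} (hU : IsSimplyConnected U) {x y : X} (p q : Path x y)
    (hp : ∀ t, p t ∈ U) (hq : ∀ t, q t ∈ U) : p.Homotopic q := by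
  have := hU.simplyConnectedSpace
  have hx : x ∈ U := by simpa using hp 0
  have hy : y ∈ U := by simpa using hp 1
  obtain ⟨p', hp'⟩ : ∃ p' : Path (⟨x, hx⟩ : U) ⟨y, hy⟩, ∀ t, (p' t : X) = p t :=
    ⟨{ toFun := fun t => ⟨p t, hp t⟩
       continuous_toFun := p.continuous.subtype_mk _
       source' := by simp
       target' := by simp }, fun _ => rfl⟩
  obtain ⟨q', hq'⟩ : ∃ q' : Path (⟨x, hx⟩ : U) ⟨y, hy⟩, ∀ t, (q' t : X) = q t :=
    ⟨{ toFun := fun t => ⟨q t, hq t⟩
       continuous_toFun := q.continuous.subtype_mk _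
       source' := by simp
       target' := by simp }, fun _ => rfl⟩
  have h := (SimplyConnectedSpace.paths_homotopic p' q').map
    (⟨Subtype.val, continuous_subtype_val⟩ : C(U, X))
  have e1 : p'.map (⟨Subtype.val, continuous_subtype_val⟩ : C(U, X)).continuous = p := by
    ext t
    exact hp' t
  have e2 : q'.map (⟨Subtype.val, continuous_subtype_val⟩ : C(U, X)).continuous = q := by
    ext t
    exact hq' t
  rw [e1, e2] at h
  exact h

/-- `p` is homotopic to all paths inside `U` or inside `V` -/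
def Gd (U V : Set X) {x y : X} (p : Path x y) : Prop :=
  ∀ q : Path x y, ((∀ t, q t ∈ U) ∨ (∀ t, q t ∈ V)) → p.Homotopic q

lemma Gd.congr {U V : Set X} {x y : X} {p p' : Path x y} (h : Gd U V p) (hpp : p.Homotopic p') :
    Gd U V p' := fun q hq => hpp.symm.trans (h q hq)

lemma trans_mem {U : Set X} {x y z : X} {p : Path x y} {q : Path y z} (hp : ∀ t, p t ∈ U)
    (hq : ∀ t, q t ∈ U) : ∀ t, (p.trans q) t ∈ U := by
  intro t
  have h : (p.trans q) t ∈ range (p.trans q) := mem_range_self t
  rw [Path.trans_range] at h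
  rcases h with ⟨s, hs⟩ | ⟨s, hs⟩
  · rw [← hs]
    exact hp s
  · rw [← hs]
    exact hq s

lemma Gd.step {U V : Set X} (hU : IsSimplyConnected U) (hV : IsSimplyConnected V)
    (hUV : IsPathConnected (U ∩ V)) {x y z : X} (hx : x ∈ U ∩ V) {p : Path x y} (h : Gd U V p)
    (w : Path y z) (hw : ∀ t, w t ∈ U) : Gd U V (p.trans w) := by
  have hy : y ∈ U := by simpa using hw 0
  have hz : z ∈ U := by simpa using hw 1
  obtain ⟨q, hq⟩ := hU.isPathConnected.joinedIn x hx.1 y hy
  have h1 : p.Homotopic q := h q (Or.inl hq)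
  have h2 : (p.trans w).Homotopic (q.trans w) := h1.hcomp (Path.Homotopic.refl w)
  have h3 := trans_mem hq hw
  rintro q' (hq' | hq')
  · exact h2.trans (homotopic_of_mem hU _ _ h3 hq')
  · have hz' : z ∈ V := by simpa using hq' 1
    obtain ⟨q'', hq''⟩ := hUV.joinedIn x hx z ⟨hz, hz'⟩
    exact (h2.trans (homotopic_of_mem hU _ q'' h3 fun t => (hq'' t).1)).trans
      (homotopic_of_mem hV q'' q' (fun t => (hq'' t).2) hq')

lemma Gd.symm {U V : Set X} {x y : X} {p : Path x y} (h : Gd U V p) : Gd V U p :=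
  fun q hq => h q hq.symm

lemma all_Gd {U V : Set X} (hUo : IsOpen U) (hVo : IsOpen V) (hc : U ∪ V = univ)
    (hU : IsSimplyConnected U) (hV : IsSimplyConnected V) (hUV : IsPathConnected (U ∩ V))
    {x y : X} (hx : x ∈ U ∩ V) (p : Path x y) : Gd U V p := by
  obtain ⟨t, t0, tm, ⟨n, hn⟩, ht⟩ := exists_monotone_Icc_subset_open_cover_unitInterval
    (c := fun b : Bool => if b then p ⁻¹' U else p ⁻¹' V) (by
      rintro (_ | _)
      · simpa using hVo.preimage p.continuous
      · simpa using hUo.preimage p.continuous) (by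
      intro s _
      have : p s ∈ U ∪ V := by rw [hc]; exact mem_univ _
      rw [mem_iUnion]
      rcases this with h | h
      · exact ⟨true, by simpa using h⟩
      · exact ⟨false, by simpa using h⟩)
  have hx' : p (t 0) ∈ U ∩ V := by
    rw [t0, p.source]
    exact hx
  have hrange : ∀ (n : ℕ) (s : I), p.subpath (t n) (t (n + 1)) s ∈ p '' Icc (t n) (t (n + 1)) := by
    intro n s
    rw [← Path.range_subpath_of_le p (t n) (t (n + 1)) (tm (Nat.le_succ n))]
    exact mem_range_self s
  have key : ∀ n : ℕ, Gd U V (p.subpath (t 0) (t n)) := by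
    intro n
    induction n with
    | zero =>
      rw [Path.subpath_self]
      rintro q (hq | hq)
      · exact homotopic_of_mem hU _ _ (fun _ => hx'.1) hq
      · exact homotopic_of_mem hV _ _ (fun _ => hx'.2) hq
    | succ n ih =>
      have h1 : ((p.subpath (t 0) (t n)).trans (p.subpath (t n) (t (n + 1)))).Homotopic
          (p.subpath (t 0) (t (n + 1))) := ⟨Path.Homotopy.subpathTransSubpath p _ _ _⟩
      obtain ⟨b, hb⟩ := ht n
      cases b with
      | true =>
        refine Gd.congr (ih.step hU hV hUV hx' _ fun s => ?_) h1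
        obtain ⟨r, hr, e⟩ := hrange n s
        rw [← e]
        simpa using hb hr
      | false =>
        refine Gd.congr (Gd.symm (ih.symm.step hV hU (by rwa [inter_comm]) hx'.symm _
          fun s => ?_)) h1
        obtain ⟨r, hr, e⟩ := hrange n s
        rw [← e]
        simpa using hb hr
  have h1 := key n
  have e0 : t 0 = 0 := t0
  have e1 : t n = 1 := hn n le_rfl
  rw [e0, e1, Path.subpath_zero_one] at h1
  intro q hq
  have h2 := h1 (q.cast p.source p.target) hq
  obtain ⟨F⟩ := h2
  exact ⟨F.pathCast p.source.symm p.target.symm⟩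

theorem vk : T_VK := by
  intro X _ U V hUo hVo hc hU hV hUV
  have hU' : IsSimplyConnected U := hU
  have hV' : IsSimplyConnected V := hV
  have hUV' : IsPathConnected (U ∩ V) := isPathConnected_iff_pathConnectedSpace.2 hUV
  obtain ⟨x₀, hx₀⟩ := hUV'.nonempty
  have hj : ∀ y : X, Joined x₀ y := by
    intro y
    have : y ∈ U ∪ V := by rw [hc]; exact mem_univ _
    rcases this with h | h
    · exact (hU'.isPathConnected.joinedIn x₀ hx₀.1 y h).joined
    · exact (hV'.isPathConnected.joinedIn x₀ hx₀.2 y h).joined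
  rw [simply_connected_iff_loops_nullhomotopic]
  refine ⟨⟨⟨x₀⟩, fun x y => (hj x).symm.trans (hj y)⟩, fun x γ => ?_⟩
  have hy : ∀ {y : X} (p p' : Path x₀ y), p.Homotopic p' := by
    intro y p p'
    have : y ∈ U ∪ V := by rw [hc]; exact mem_univ _
    have g1 := all_Gd hUo hVo hc hU' hV' hUV' hx₀ p
    have g2 := all_Gd hUo hVo hc hU' hV' hUV' hx₀ p'
    rcases this with h | h
    · obtain ⟨q, hq⟩ := hU'.isPathConnected.joinedIn x₀ hx₀.1 y h
      exact (g1 q (Or.inl hq)).trans (g2 q (Or.inl hq)).symm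
    · obtain ⟨q, hq⟩ := hV'.isPathConnected.joinedIn x₀ hx₀.2 y h
      exact (g1 q (Or.inr hq)).trans (g2 q (Or.inr hq)).symm
  obtain ⟨w⟩ := hj x
  have h1 := hy (w.trans γ) w
  rw [← Path.Homotopic.Quotient.eq] at h1 ⊢
  rw [Path.Homotopic.Quotient.mk_trans] at h1
  have h2 := congrArg (fun z => (Path.Homotopic.Quotient.mk w).symm.trans z) h1
  simpa [← Path.Homotopic.Quotient.trans_assoc] using h2

end Pool.Agent.H27.LB
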